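import Pool.Agent.Helper25.PCap.GoalsA

/-!
Planar p-capacity (MP_576c25_an): the inclusion theorem (packet A13).
-/

set_option autoImplicit false

open MeasureTheory Set Filter Topology
open scoped ContDiff Real

noncomputable section

namespace Pool.Agent.Helper75.PCap

open Pool.Agent.Helper25.PCap

theorem pkA13 (h4 : GA4) (h5 : GA5) (h10 : GA10) (h12 : GA12) : PartA := by
  intro κ h0 h1 S D
  obtain ⟨α₀, hα0, hα1, hα⟩ := h4 κ h0 h1 S D
  let A : Set ℝ := {α | 0 < α ∧ α ≤ 1 ∧ ∀ β, 0 < β → β ≤ α → PA S D β}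
  have hA0 : α₀ ∈ A := ⟨hα0, hα1, hα⟩
  have hAb : BddAbove A := ⟨1, fun α h => h.2.1⟩
  set s := sSup A with hs
  have hs0 : 0 < s := hα0.trans_le (le_csSup hAb hA0)
  have hs1 : s ≤ 1 := csSup_le ⟨α₀, hA0⟩ fun α h => h.2.1
  have hlt : ∀ β, 0 < β → β < s → PA S D β := by
    intro β hβ hβs
    obtain ⟨α, hαA, hβα⟩ := exists_lt_of_lt_csSup ⟨α₀, hA0⟩ hβs
    exact hαA.2.2 β hβ hβα.le
  have hPs : PA S D s := h10 κ h0 h1 S D s hs0 hs1 (h5 κ h0 h1 S D s hs0 hs1 hlt)
  have hs' : s = 1 := by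
    by_contra hne
    have hslt : s < 1 := lt_of_le_of_ne hs1 hne
    obtain ⟨α', hα', hP⟩ := h12 κ h0 h1 S D s hs0 hslt hPs
    have hm : min α' 1 ∈ A := by
      refine ⟨lt_min (hs0.trans hα') one_pos, min_le_right _ _, fun β hβ hβm => ?_⟩
      rcases lt_or_ge β s with hb | hb
      · exact hlt β hβ hb
      · exact hP β hb (hβm.trans (min_le_left _ _)) (hβm.trans (min_le_right _ _))
    have := le_csSup hAb hm
    rw [← hs] at this
    exact absurd this (not_le.2 (lt_min hα' hslt))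
  rw [hs'] at hPs
  intro z hz
  have hu : D.u z < 1 := by
    have hder : ∀ τ ≤ D.T z.2, HasDerivAt (fun τ => D.u (τ, z.2)) (D1 D.u (τ, z.2)) τ := by
      intro τ hτ
      have hV : (τ, z.2) ∈ D.V := D.VT (τ, z.2) hτ
      have hd : DifferentiableAt ℝ D.u (τ, z.2) :=
        (D.sys.1.contDiffAt (D.Vopen.mem_nhds hV)).differentiableAt (by simp)
      have h2 : HasDerivAt (fun τ : ℝ => (τ, z.2)) ((1 : ℝ), (0 : ℝ)) τ :=
        (hasDerivAt_id τ).prodMk (hasDerivAt_const τ z.2)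
      exact hd.hasFDerivAt.comp_hasDerivAt τ h2
    have hmono : StrictMonoOn (fun τ => D.u (τ, z.2)) (Icc z.1 (D.T z.2)) := by
      refine strictMonoOn_of_deriv_pos (convex_Icc _ _) ?_ ?_
      · intro τ hτ
        exact (hder τ hτ.2).continuousAt.continuousWithinAt
      · intro τ hτ
        rw [interior_Icc] at hτ
        rw [(hder τ hτ.2.le).deriv]
        exact D.upos (τ, z.2) hτ.2.le
    have := hmono (left_mem_Icc.2 hz.le) (right_mem_Icc.2 hz.le) hz
    rw [← D.u1 z.2]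
    exact this
  have h3 := hPs z hz.le hu
  have h4 : shf κ 1 z.1 = z.1 := by simp [shf]
  rw [h4, div_one] at h3
  exact h3

end Pool.Agent.Helper75.PCap
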