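import Pool.Agent.Helper25.PCap.GoalsTools

/-!
Planar p-capacity (MP_576c25_an): a compactly supported smooth reproducing kernel for
solutions of `LL κ u = 0` (packet REPR).
-/

set_option autoImplicit false

open MeasureTheory Set Filter Topology
open scoped ContDiff Real

noncomputable section

namespace Pool.Agent.Helper75.PCap

open Pool.Agent.Helper25.PCap

/-- the affine map `y ↦ x + (y₁, √κ y₂)` -/
def Aff (κ : ℝ) (x y : ℝ × ℝ) : ℝ × ℝ := (x.1 + y.1, x.2 + Real.sqrt κ * y.2)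

/-- `y ↦ exp(-(1-κ) y₁ / 2) v (x + (y₁, √κ y₂))` -/
def wt (κ : ℝ) (v : ℝ × ℝ → ℝ) (x y : ℝ × ℝ) : ℝ :=
  Real.exp (-((1 - κ) / 2 * y.1)) * v (Aff κ x y)

/-- the linear part of `Aff` -/
def AL (κ : ℝ) : ℝ × ℝ →L[ℝ] ℝ × ℝ :=
  (ContinuousLinearMap.fst ℝ ℝ ℝ).prod (Real.sqrt κ • ContinuousLinearMap.snd ℝ ℝ ℝ)

theorem AL_apply (κ : ℝ) (y : ℝ × ℝ) : AL κ y = (y.1, Real.sqrt κ * y.2) := rfl

theorem Aff_eq (κ : ℝ) (x y : ℝ × ℝ) : Aff κ x y = x + AL κ y := by
  rw [AL_apply]; rfl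

theorem contDiff_Aff (κ : ℝ) (x : ℝ × ℝ) {n : WithTop ℕ∞} : ContDiff ℝ n (Aff κ x) := by
  have : Aff κ x = fun y => x + AL κ y := funext fun y => Aff_eq κ x y
  rw [this]
  exact contDiff_const.add (AL κ).contDiff

theorem hasFDerivAt_Aff (κ : ℝ) (x y : ℝ × ℝ) : HasFDerivAt (Aff κ x) (AL κ) y := by
  have : Aff κ x = fun y => x + AL κ y := funext fun y => Aff_eq κ x y
  rw [this]
  exact (AL κ).hasFDerivAt.const_add x

theorem hasFDerivAt_wt {κ : ℝ} {v : ℝ × ℝ → ℝ} {x y : ℝ × ℝ}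
    (hv : DifferentiableAt ℝ v (Aff κ x y)) :
    HasFDerivAt (wt κ v x)
      (Real.exp (-((1 - κ) / 2 * y.1)) • ((fderiv ℝ v (Aff κ x y)).comp (AL κ)) +
        v (Aff κ x y) • (Real.exp (-((1 - κ) / 2 * y.1)) •
          (-(((1 - κ) / 2) • ContinuousLinearMap.fst ℝ ℝ ℝ)))) y := by
  have h1 : HasFDerivAt (fun y : ℝ × ℝ => -((1 - κ) / 2 * y.1))
      (-(((1 - κ) / 2) • ContinuousLinearMap.fst ℝ ℝ ℝ)) y :=
    ((ContinuousLinearMap.fst ℝ ℝ ℝ).hasFDerivAt.const_mul ((1 - κ) / 2)).neg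
  exact h1.exp.mul (hv.hasFDerivAt.comp y (hasFDerivAt_Aff κ x y))

theorem D1_wt {κ : ℝ} {v : ℝ × ℝ → ℝ} {x y : ℝ × ℝ} (hv : DifferentiableAt ℝ v (Aff κ x y)) :
    D1 (wt κ v x) y = wt κ (fun z => D1 v z - (1 - κ) / 2 * v z) x y := by
  unfold D1
  rw [(hasFDerivAt_wt hv).fderiv]
  simp [AL_apply, wt]
  ring

theorem D2_wt {κ : ℝ} {v : ℝ × ℝ → ℝ} {x y : ℝ × ℝ} (hv : DifferentiableAt ℝ v (Aff κ x y)) :
    D2 (wt κ v x) y = wt κ (fun z => Real.sqrt κ * D2 v z) x y := by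
  unfold D2
  rw [(hasFDerivAt_wt hv).fderiv]
  have : ((0 : ℝ), Real.sqrt κ) = Real.sqrt κ • ((0 : ℝ), (1 : ℝ)) := by simp
  simp [AL_apply, wt]
  rw [this, map_smul]
  simp

theorem diff_D1 {O : Set (ℝ × ℝ)} (hO : IsOpen O) {u : ℝ × ℝ → ℝ} (hu : ContDiffOn ℝ 2 u O)
    {z : ℝ × ℝ} (hz : z ∈ O) :
    DifferentiableAt ℝ u z ∧ DifferentiableAt ℝ (D1 u) z ∧ DifferentiableAt ℝ (D2 u) z := by
  have h := hu.contDiffAt (hO.mem_nhds hz)
  have h1 : ContDiffAt ℝ 1 (fderiv ℝ u) z := h.fderiv_right (by norm_num)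
  refine ⟨h.differentiableAt (by norm_num), ?_, ?_⟩
  · exact (h1.clm_apply contDiffAt_const).differentiableAt (by norm_num)
  · exact (h1.clm_apply contDiffAt_const).differentiableAt (by norm_num)

theorem D1_congr {f g : ℝ × ℝ → ℝ} {z : ℝ × ℝ} (h : f =ᶠ[𝓝 z] g) : D1 f z = D1 g z := by
  unfold D1; rw [h.fderiv_eq]

theorem D2_congr {f g : ℝ × ℝ → ℝ} {z : ℝ × ℝ} (h : f =ᶠ[𝓝 z] g) : D2 f z = D2 g z := by
  unfold D2; rw [h.fderiv_eq]

theorem lap_wt {κ : ℝ} (hκ : 0 < κ) {O : Set (ℝ × ℝ)} (hO : IsOpen O) {u : ℝ × ℝ → ℝ}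
    (hu : ContDiffOn ℝ 2 u O) (hL : ∀ z ∈ O, LL κ u z = 0) {x y : ℝ × ℝ}
    (hy : Aff κ x y ∈ O) :
    D1 (D1 (wt κ u x)) y + D2 (D2 (wt κ u x)) y = ((1 - κ) / 2) ^ 2 * wt κ u x y := by
  have hc : Continuous (Aff κ x) := (contDiff_Aff κ x (n := 0)).continuous
  have hev : ∀ᶠ y' in 𝓝 y, Aff κ x y' ∈ O := hc.continuousAt.eventually_mem (hO.mem_nhds hy)
  have e1 : D1 (wt κ u x) =ᶠ[𝓝 y] wt κ (fun z => D1 u z - (1 - κ) / 2 * u z) x :=
    hev.mono fun y' hy' => D1_wt (diff_D1 hO hu hy').1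
  have e2 : D2 (wt κ u x) =ᶠ[𝓝 y] wt κ (fun z => Real.sqrt κ * D2 u z) x :=
    hev.mono fun y' hy' => D2_wt (diff_D1 hO hu hy').1
  obtain ⟨d0, d1, d2⟩ := diff_D1 hO hu hy
  rw [D1_congr e1, D2_congr e2,
    D1_wt (v := fun z => D1 u z - (1 - κ) / 2 * u z) (d1.sub (d0.const_mul _)),
    D2_wt (v := fun z => Real.sqrt κ * D2 u z) (d2.const_mul _)]
  have h1 : D1 (fun z => D1 u z - (1 - κ) / 2 * u z) (Aff κ x y) =
      D1 (D1 u) (Aff κ x y) - (1 - κ) / 2 * D1 u (Aff κ x y) := by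
    have := (d1.hasFDerivAt.sub (d0.hasFDerivAt.const_mul ((1 - κ) / 2))).fderiv
    unfold D1 at this ⊢
    rw [show (fun z => fderiv ℝ u z (1, 0) - (1 - κ) / 2 * u z) =
      ((fun z => fderiv ℝ u z (1, 0)) - fun y => (1 - κ) / 2 * u y) from rfl, this]
    simp
  have h2 : D2 (fun z => Real.sqrt κ * D2 u z) (Aff κ x y) =
      Real.sqrt κ * D2 (D2 u) (Aff κ x y) := by
    have := (d2.hasFDerivAt.const_mul (Real.sqrt κ)).fderiv
    unfold D2 at this ⊢
    rw [this]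
    simp
  have hk : Real.sqrt κ * Real.sqrt κ = κ := Real.mul_self_sqrt hκ.le
  have hLz := hL _ hy
  unfold LL at hLz
  simp only [wt, h1, h2]
  have : D1 (D1 u) (Aff κ x y) = (1 - κ) * D1 u (Aff κ x y) - κ * D2 (D2 u) (Aff κ x y) := by
    linarith
  rw [this]
  linear_combination (Real.exp (-((1 - κ) / 2 * y.1)) * D2 (D2 u) (Aff κ x y)) * hk

theorem contDiffOn_wt {κ : ℝ} {O : Set (ℝ × ℝ)} {u : ℝ × ℝ → ℝ}
    (hu : ContDiffOn ℝ 2 u O) (x : ℝ × ℝ) : ContDiffOn ℝ 2 (wt κ u x) (Aff κ x ⁻¹' O) := by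
  refine ContDiffOn.mul ?_ ?_
  · exact (((contDiff_const.mul contDiff_fst).neg).exp).contDiffOn
  · exact hu.comp (contDiff_Aff κ x).contDiffOn fun y hy => hy

theorem cmean_congr {f g : ℝ × ℝ → ℝ} {r : ℝ}
    (h : ∀ y : ℝ × ℝ, y.1 ^ 2 + y.2 ^ 2 = r ^ 2 → f y = g y) : cmean f 0 r = cmean g 0 r := by
  unfold cmean
  congr 1
  refine intervalIntegral.integral_congr fun φ _ => ?_
  refine h _ ?_
  simp only [Prod.fst_zero, Prod.snd_zero, zero_add]
  have := Real.sin_sq_add_cos_sq φ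
  linear_combination r ^ 2 * this

theorem mean_zero (h : GCirc) {κ : ℝ} (h0 : 0 < κ) (h1 : κ < 1) {O : Set (ℝ × ℝ)} (hO : IsOpen O)
    {w : ℝ × ℝ → ℝ} (hw : ContDiffOn ℝ 2 w O) (hL : ∀ z ∈ O, LL κ w z = 0) {x : ℝ × ℝ}
    (hx : w x = 0) {R : ℝ} (hR : 0 < R) (hR1 : R ≤ 1)
    (hsub : ∀ y : ℝ × ℝ, y.1 ^ 2 + y.2 ^ 2 ≤ R ^ 2 → Aff κ x y ∈ O) :
    ∀ r ∈ Icc 0 R, cmean (wt κ w x) 0 r = 0 := by
  have hc : Continuous (Aff κ x) := (contDiff_Aff κ x (n := 0)).continuous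
  obtain ⟨hcont, hz, -, hder⟩ := h (wt κ w x) 0 R (Aff κ x ⁻¹' O) hR (hO.preimage hc)
    (by
      intro y hy
      refine hsub y ?_
      simpa using hy) (contDiffOn_wt hw x)
  have hM0 : cmean (wt κ w x) 0 0 = 0 := by
    rw [hz]
    simp [wt, Aff, hx]
  have hmean : ∀ s ∈ Icc 0 R, cmean (fun y => D1 (D1 (wt κ w x)) y + D2 (D2 (wt κ w x)) y) 0 s =
      ((1 - κ) / 2) ^ 2 * cmean (wt κ w x) 0 s := by
    intro s hs
    rw [cmean_congr (g := fun y => ((1 - κ) / 2) ^ 2 * wt κ w x y)]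
    · unfold cmean
      rw [intervalIntegral.integral_const_mul]
      ring
    · intro y hy
      refine lap_wt h0 hO hw hL (hsub y ?_)
      rw [hy]
      exact pow_le_pow_left₀ hs.1 hs.2 2
  -- the maximum of |M|
  obtain ⟨m, hm, hmax⟩ := isCompact_Icc.exists_isMaxOn (nonempty_Icc.2 hR.le) hcont.abs
  set S := |cmean (wt κ w x) 0 m| with hS
  have hSb : ∀ s ∈ Icc 0 R, |cmean (wt κ w x) 0 s| ≤ S := fun s hs => hmax hs
  have hS0 : 0 ≤ S := abs_nonneg _
  have hμ : ((1 - κ) / 2) ^ 2 ≤ 1 / 4 := by nlinarith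
  have hμ0 : 0 ≤ ((1 - κ) / 2) ^ 2 := sq_nonneg _
  have hd : ∀ r ∈ Ioo 0 R, |(1 / r) * ∫ s in (0 : ℝ)..r, s *
      cmean (fun y => D1 (D1 (wt κ w x)) y + D2 (D2 (wt κ w x)) y) 0 s| ≤ S / 4 := by
    intro r hr
    have hb : ‖∫ s in (0 : ℝ)..r, s *
      cmean (fun y => D1 (D1 (wt κ w x)) y + D2 (D2 (wt κ w x)) y) 0 s‖ ≤ (S / 4) * |r - 0| := by
      refine intervalIntegral.norm_integral_le_of_norm_le_const fun s hs => ?_
      rw [uIoc_of_le hr.1.le] at hs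
      have hs' : s ∈ Icc 0 R := ⟨hs.1.le, hs.2.trans hr.2.le⟩
      rw [hmean s hs', Real.norm_eq_abs, abs_mul, abs_mul, abs_of_pos hs.1, abs_of_nonneg hμ0]
      have h1 := hSb s hs'
      have hs1 : s ≤ 1 := hs'.2.trans hR1
      have h2 : ((1 - κ) / 2) ^ 2 * |cmean (wt κ w x) 0 s| ≤ 1 / 4 * S :=
        mul_le_mul hμ h1 (abs_nonneg _) (by norm_num)
      have h3 : 0 ≤ ((1 - κ) / 2) ^ 2 * |cmean (wt κ w x) 0 s| :=
        mul_nonneg hμ0 (abs_nonneg _)
      calc s * (((1 - κ) / 2) ^ 2 * |cmean (wt κ w x) 0 s|)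
          ≤ 1 * (((1 - κ) / 2) ^ 2 * |cmean (wt κ w x) 0 s|) :=
            mul_le_mul_of_nonneg_right hs1 h3
        _ ≤ S / 4 := by linarith
    rw [abs_mul, abs_of_pos (one_div_pos.2 hr.1), one_div, inv_mul_le_iff₀ hr.1]
    rw [Real.norm_eq_abs, sub_zero, abs_of_pos hr.1] at hb
    linarith
  have hSle : S ≤ S / 4 := by
    rcases eq_or_lt_of_le hm.1 with hm0 | hm0
    · rw [hS, ← hm0, hM0]
      simp
    · obtain ⟨c, hc1, hc2⟩ := exists_hasDerivAt_eq_slope (cmean (wt κ w x) 0) _ hm0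
        (hcont.mono (Icc_subset_Icc le_rfl hm.2))
        (fun r hr => hder r ⟨hr.1, hr.2.trans_le hm.2⟩)
      have hcR : c ∈ Ioo 0 R := ⟨hc1.1, hc1.2.trans_le hm.2⟩
      have hdc := hd c hcR
      rw [hc2, hM0, sub_zero, sub_zero, abs_div, abs_of_pos hm0, div_le_iff₀ hm0] at hdc
      have : m ≤ 1 := hm.2.trans hR1
      nlinarith
  have hS00 : S = 0 := by linarith
  intro r hr
  have := hSb r hr
  rw [hS00] at this
  exact abs_eq_zero.1 (le_antisymm this (abs_nonneg _))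

/-- the integral against a radial weight vanishes -/
theorem polar_zero {ψ : ℝ × ℝ → ℝ} {β : ℝ → ℝ} {R : ℝ}
    (hM : ∀ r ∈ Icc 0 R, cmean ψ 0 r = 0) (hβ : ∀ r, R < r → β (r ^ 2) = 0) :
    ∫ y : ℝ × ℝ, ψ y * β (y.1 ^ 2 + y.2 ^ 2) = 0 := by
  rw [← integral_comp_polarCoord_symm, polarCoord_target]
  by_cases hint : IntegrableOn (fun p : ℝ × ℝ => p.1 • (ψ (polarCoord.symm p) *
    β ((polarCoord.symm p).1 ^ 2 + (polarCoord.symm p).2 ^ 2))) (Ioi 0 ×ˢ Ioo (-π) π)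
  · rw [Measure.volume_eq_prod] at hint ⊢
    rw [setIntegral_prod _ hint]
    refine setIntegral_eq_zero_of_forall_eq_zero fun r hr => ?_
    have hr0 : (0 : ℝ) < r := hr
    have h1 : ∀ φ : ℝ, (r • (ψ (polarCoord.symm (r, φ)) *
        β ((polarCoord.symm (r, φ)).1 ^ 2 + (polarCoord.symm (r, φ)).2 ^ 2))) =
        (r * β (r ^ 2)) * ψ (r * Real.cos φ, r * Real.sin φ) := by
      intro φ
      rw [polarCoord_symm_apply]
      simp only [smul_eq_mul]
      have : (r * Real.cos φ) ^ 2 + (r * Real.sin φ) ^ 2 = r ^ 2 := by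
        have := Real.sin_sq_add_cos_sq φ
        linear_combination r ^ 2 * this
      rw [this]
      ring
    simp only [h1]
    rw [integral_const_mul]
    by_cases hrR : r ≤ R
    · have h2 : ∫ φ in Ioo (-π) π, ψ (r * Real.cos φ, r * Real.sin φ) = 0 := by
        rw [← integral_Ioc_eq_integral_Ioo,
          ← intervalIntegral.integral_of_le (by linarith [Real.pi_pos])]
        have hp : Function.Periodic (fun φ : ℝ => ψ (r * Real.cos φ, r * Real.sin φ)) (2 * π) := by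
          intro φ
          simp
        have h3 := hp.intervalIntegral_add_eq (-π) 0
        rw [show -π + 2 * π = π by ring, zero_add] at h3
        rw [h3]
        have h4 := hM r ⟨hr0.le, hrR⟩
        unfold cmean at h4
        simp only [Prod.fst_zero, Prod.snd_zero, zero_add] at h4
        rcases mul_eq_zero.1 h4 with h5 | h5
        · exfalso
          have := Real.pi_pos
          exact absurd h5 (by positivity)
        · exact h5
      rw [h2, mul_zero]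
    · rw [hβ r (not_le.1 hrR), mul_zero, zero_mul]
  · exact integral_undef hint

/-- `u₀(z) = exp((1-κ)(z₁ - x₁))` solves the equation -/
def u0 (κ : ℝ) (x z : ℝ × ℝ) : ℝ := Real.exp ((1 - κ) * (z.1 - x.1))

theorem contDiff_u0 (κ : ℝ) (x : ℝ × ℝ) {n : WithTop ℕ∞} : ContDiff ℝ n (u0 κ x) :=
  (contDiff_const.mul (contDiff_fst.sub contDiff_const)).exp

theorem hasFDerivAt_u0 (κ : ℝ) (x z : ℝ × ℝ) :
    HasFDerivAt (u0 κ x) (u0 κ x z • ((1 - κ) • ContinuousLinearMap.fst ℝ ℝ ℝ)) z :=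
  (((ContinuousLinearMap.fst ℝ ℝ ℝ).hasFDerivAt.sub_const x.1).const_mul (1 - κ)).exp

theorem D1_u0 (κ : ℝ) (x z : ℝ × ℝ) : D1 (u0 κ x) z = (1 - κ) * u0 κ x z := by
  unfold D1
  rw [(hasFDerivAt_u0 κ x z).fderiv]
  simp
  ring

theorem D2_u0 (κ : ℝ) (x z : ℝ × ℝ) : D2 (u0 κ x) z = 0 := by
  unfold D2
  rw [(hasFDerivAt_u0 κ x z).fderiv]
  simp

theorem LL_sub {κ a : ℝ} {O : Set (ℝ × ℝ)} (hO : IsOpen O) {u : ℝ × ℝ → ℝ}
    (hu : ContDiffOn ℝ 2 u O) (hL : ∀ z ∈ O, LL κ u z = 0) (x : ℝ × ℝ) :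
    ∀ z ∈ O, LL κ (fun z => u z - a * u0 κ x z) z = 0 := by
  have h1 : ∀ z ∈ O, D1 (fun z => u z - a * u0 κ x z) z = D1 u z - a * ((1 - κ) * u0 κ x z) := by
    intro z hz
    have hd := (diff_D1 hO hu hz).1
    have := (hd.hasFDerivAt.sub ((hasFDerivAt_u0 κ x z).const_mul a)).fderiv
    unfold D1
    rw [show (fun z => u z - a * u0 κ x z) = u - fun y => a * u0 κ x y from rfl, this]
    simp only [_root_.sub_apply, _root_.smul_apply, smul_eq_mul,
      ContinuousLinearMap.coe_fst']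
    ring
  have h2 : ∀ z ∈ O, D2 (fun z => u z - a * u0 κ x z) z = D2 u z := by
    intro z hz
    have hd := (diff_D1 hO hu hz).1
    have := (hd.hasFDerivAt.sub ((hasFDerivAt_u0 κ x z).const_mul a)).fderiv
    unfold D2
    rw [show (fun z => u z - a * u0 κ x z) = u - fun y => a * u0 κ x y from rfl, this]
    simp
  intro z hz
  have hev : ∀ᶠ z' in 𝓝 z, z' ∈ O := hO.mem_nhds hz
  have e1 : D1 (fun z => u z - a * u0 κ x z) =ᶠ[𝓝 z]
      fun z => D1 u z - a * ((1 - κ) * u0 κ x z) := hev.mono fun z' hz' => h1 z' hz'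
  have e2 : D2 (fun z => u z - a * u0 κ x z) =ᶠ[𝓝 z] D2 u := hev.mono fun z' hz' => h2 z' hz'
  have h3 : D1 (fun z => D1 u z - a * ((1 - κ) * u0 κ x z)) z =
      D1 (D1 u) z - a * ((1 - κ) * ((1 - κ) * u0 κ x z)) := by
    have hd := (diff_D1 hO hu hz).2.1
    have := (hd.hasFDerivAt.sub (((hasFDerivAt_u0 κ x z).const_mul (1 - κ)).const_mul a)).fderiv
    unfold D1 at this ⊢
    rw [show (fun z => fderiv ℝ u z (1, 0) - a * ((1 - κ) * u0 κ x z)) =
      (fun z => fderiv ℝ u z (1, 0)) - fun y => a * ((1 - κ) * u0 κ x y) from rfl, this]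
    simp only [_root_.sub_apply, _root_.smul_apply, smul_eq_mul,
      ContinuousLinearMap.coe_fst']
    ring
  have := hL z hz
  unfold LL at this ⊢
  rw [D1_congr e1, D2_congr e2, h3, h1 z hz]
  linear_combination this

theorem pkRepr (h : GCirc) : GRepr := by
  intro κ h0 h1 δ hδ
  -- radius
  set R := min δ 1 / 2 with hRdef
  have hR : 0 < R := by
    have : 0 < min δ 1 := lt_min hδ one_pos
    positivity
  have hRδ : R < δ := by
    have : min δ 1 ≤ δ := min_le_left _ _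
    linarith
  have hR1 : R ≤ 1 := by
    have : min δ 1 ≤ 1 := min_le_right _ _
    linarith
  -- the bump
  let β : ContDiffBump (0 : ℝ) := ⟨R ^ 2 / 4, R ^ 2 / 2, by positivity, by nlinarith [sq_pos_of_pos hR]⟩
  have hβ0 : ∀ s, R ^ 2 / 2 ≤ s → β s = 0 := by
    intro s hs
    refine β.zero_of_le_dist ?_
    rw [Real.dist_eq, sub_zero]
    exact hs.trans (le_abs_self s)
  have hβnn : ∀ s, 0 ≤ β s := fun s => β.nonneg
  have hβ1 : β 0 = 1 := β.one_of_mem_closedBall (by simp; positivity)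
  -- unnormalised kernel
  let η₀ : ℝ × ℝ → ℝ := fun z => Real.exp (-((1 - κ) * z.1 / 2)) * β (z.1 ^ 2 + z.2 ^ 2 / κ)
  have hη₀s : ContDiff ℝ ∞ η₀ := by
    refine ContDiff.mul ?_ ?_
    · exact ((contDiff_const.mul contDiff_fst).div_const 2).neg.exp
    · exact β.contDiff.comp ((contDiff_fst.pow 2).add ((contDiff_snd.pow 2).div_const κ))
  have hη₀0 : ∀ z : ℝ × ℝ, R < ‖z‖ → η₀ z = 0 := by
    intro z hz
    have : R ^ 2 / 2 ≤ z.1 ^ 2 + z.2 ^ 2 / κ := by
      have hk : z.2 ^ 2 ≤ z.2 ^ 2 / κ := by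
        rw [le_div_iff₀ h0]
        nlinarith [sq_nonneg z.2]
      rw [Prod.norm_def] at hz
      rcases lt_max_iff.1 hz with h2 | h2
      · rw [Real.norm_eq_abs] at h2
        have := sq_lt_sq' (by linarith [abs_nonneg z.1]) h2
        rw [sq_abs] at this
        nlinarith [sq_nonneg z.2, sq_nonneg R]
      · rw [Real.norm_eq_abs] at h2
        have := sq_lt_sq' (by linarith [abs_nonneg z.2]) h2
        rw [sq_abs] at this
        nlinarith [sq_nonneg z.1, sq_nonneg R]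
    change _ * β _ = 0
    rw [hβ0 _ this, mul_zero]
  have hη₀c : HasCompactSupport η₀ := by
    refine HasCompactSupport.intro (isCompact_closedBall (0 : ℝ × ℝ) R) fun z hz => hη₀0 z ?_
    rw [mem_closedBall_zero_iff] at hz
    exact not_le.1 hz
  let c : ℝ := ∫ z : ℝ × ℝ, Real.exp ((1 - κ) * z.1) * η₀ z
  have hexp : Continuous fun z : ℝ × ℝ => Real.exp ((1 - κ) * z.1) := by fun_prop
  have hc : 0 < c := by
    refine (hexp.mul hη₀s.continuous).integral_pos_of_hasCompactSupport_nonneg_nonzero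
      hη₀c.mul_left ?_ (x := 0) ?_
    · intro z
      exact mul_nonneg (Real.exp_pos _).le (mul_nonneg (Real.exp_pos _).le (hβnn _))
    · change Real.exp _ * (Real.exp _ * β _) ≠ 0
      simp [hβ1]
  refine ⟨fun z => c⁻¹ * η₀ z, contDiff_const.mul hη₀s, hη₀c.mul_left, ?_, ?_⟩
  · intro z hz
    change c⁻¹ * η₀ z = 0
    rw [hη₀0 z (hRδ.trans_le hz), mul_zero]
  intro O u hO hu hL x hxO
  have hsub : ∀ y : ℝ × ℝ, y.1 ^ 2 + y.2 ^ 2 ≤ R ^ 2 → Aff κ x y ∈ O := by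
    intro y hy
    refine hxO ?_
    rw [mem_closedBall_iff_norm, Aff_eq, add_sub_cancel_left, AL_apply, Prod.norm_def]
    have hy1 : |y.1| ≤ R := abs_le_of_sq_le_sq (by nlinarith [sq_nonneg y.2]) hR.le
    have hy2 : |y.2| ≤ R := abs_le_of_sq_le_sq (by nlinarith [sq_nonneg y.1]) hR.le
    refine max_le ?_ ?_
    · rw [Real.norm_eq_abs]; exact hy1.trans hRδ.le
    · rw [Real.norm_eq_abs, abs_mul, abs_of_nonneg (Real.sqrt_nonneg κ)]
      have : Real.sqrt κ ≤ 1 := Real.sqrt_le_one.2 h1.le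
      calc Real.sqrt κ * |y.2| ≤ 1 * |y.2| := mul_le_mul_of_nonneg_right this (abs_nonneg _)
        _ ≤ δ := by linarith
  -- the difference
  let w : ℝ × ℝ → ℝ := fun z => u z - u x * u0 κ x z
  have hw : ContDiffOn ℝ 2 w O := hu.sub (contDiff_const.mul (contDiff_u0 κ x)).contDiffOn
  have hwL : ∀ z ∈ O, LL κ w z = 0 := LL_sub hO hu hL x
  have hwx : w x = 0 := by simp [w, u0]
  have hM := mean_zero h h0 h1 hO hw hwL hwx hR hR1 hsub
  -- continuity of the integrands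
  have hcont : ∀ v : ℝ × ℝ → ℝ, ContDiffOn ℝ 2 v O → Integrable fun z => v (x + z) * η₀ z := by
    intro v hv
    have hcv : Continuous fun z => v (x + z) * η₀ z := by
      rw [continuous_iff_continuousAt]
      intro z
      by_cases hz : x + z ∈ O
      · have h1 : ContinuousAt v (x + z) := (hv.contDiffAt (hO.mem_nhds hz)).continuousAt
        have h2 : ContinuousAt (fun z => v (x + z)) z :=
          ContinuousAt.comp' (f := fun z => x + z) h1 (by fun_prop)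
        exact h2.mul hη₀s.continuous.continuousAt
      · have hz1 : R < ‖z‖ := by
          by_contra hcon
          apply hz
          apply hxO
          rw [mem_closedBall_iff_norm, add_sub_cancel_left]
          exact (not_lt.1 hcon).trans hRδ.le
        have hz2 : (fun z => v (x + z) * η₀ z) =ᶠ[𝓝 z] fun _ => 0 := by
          have : ∀ᶠ z' : ℝ × ℝ in 𝓝 z, R < ‖z'‖ :=
            continuous_norm.continuousAt.eventually_const_lt hz1
          exact this.mono fun z' hz' => by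
            change _ * η₀ z' = 0
            rw [hη₀0 z' hz', mul_zero]
        exact continuousAt_const.congr hz2.symm
    exact hcv.integrable_of_hasCompactSupport hη₀c.mul_left
  -- the integral of w vanishes
  have hwint : ∫ z, w (x + z) * η₀ z = 0 := by
    have hcv := integral_image_eq_integral_abs_det_fderiv_smul (volume : Measure (ℝ × ℝ))
      (s := univ) (f := AL κ) (f' := fun _ => AL κ) MeasurableSet.univ
      (fun y _ => (AL κ).hasFDerivAt.hasFDerivWithinAt) (by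
        intro y _ y' _ hyy
        simp only [AL_apply, Prod.mk.injEq] at hyy
        have : Real.sqrt κ ≠ 0 := (Real.sqrt_pos.2 h0).ne'
        exact Prod.ext hyy.1 (mul_left_cancel₀ this hyy.2))
      (fun z => w (x + z) * η₀ z)
    have himg : (AL κ) '' univ = univ := by
      rw [image_univ, range_eq_univ]
      intro z
      refine ⟨(z.1, z.2 / Real.sqrt κ), ?_⟩
      have : Real.sqrt κ ≠ 0 := (Real.sqrt_pos.2 h0).ne'
      rw [AL_apply]
      ext
      · rfl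
      · field_simp
    rw [himg, setIntegral_univ, setIntegral_univ] at hcv
    rw [hcv]
    simp only [smul_eq_mul]
    rw [integral_const_mul]
    have h5 : ∀ y : ℝ × ℝ, w (x + AL κ y) * η₀ (AL κ y) =
        wt κ w x y * β (y.1 ^ 2 + y.2 ^ 2) := by
      intro y
      have h6 : (Real.sqrt κ * y.2) ^ 2 / κ = y.2 ^ 2 := by
        rw [mul_pow, Real.sq_sqrt h0.le]
        field_simp
      change w (x + AL κ y) * (Real.exp (-((1 - κ) * (AL κ y).1 / 2)) *
        β ((AL κ y).1 ^ 2 + (AL κ y).2 ^ 2 / κ)) = _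
      unfold wt
      rw [Aff_eq, AL_apply]
      simp only [h6]
      rw [show (1 - κ) * y.1 / 2 = (1 - κ) / 2 * y.1 by ring]
      ring
    simp only [h5]
    rw [polar_zero hM, mul_zero]
    intro r hr
    refine hβ0 _ ?_
    have := pow_lt_pow_left₀ hr hR.le (n := 2) (by norm_num)
    nlinarith [sq_nonneg R]
  -- conclusion
  have hu0int : ∫ z, u0 κ x (x + z) * η₀ z = c := by
    refine integral_congr_ae (Eventually.of_forall fun z => ?_)
    simp [u0]
  have hsum : ∫ z, u (x + z) * η₀ z = u x * c := by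
    have h7 : ∀ z, u (x + z) * η₀ z = w (x + z) * η₀ z + u x * (u0 κ x (x + z) * η₀ z) := by
      intro z
      simp only [w]
      ring
    simp only [h7]
    rw [integral_add (hcont w hw) ((hcont _ (contDiff_u0 κ x).contDiffOn).const_mul _), hwint,
      integral_const_mul, hu0int, zero_add]
  have h8 : ∀ z, u (x + z) * (c⁻¹ * η₀ z) = c⁻¹ * (u (x + z) * η₀ z) := fun z => by ring
  simp only [h8]
  rw [integral_const_mul, hsum]
  field_simp

end Pool.Agent.Helper75.PCap
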