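import Pool.Agent.Helper25.PCap.GoalsP
import Pool.Agent.Helper25.PCap.GoalsF

/-!
Planar p-capacity (MP_576c25_an): level curves are strictly convex (packet P3).
-/

set_option autoImplicit false

open MeasureTheory Set Filter Topology
open scoped ContDiff Real

noncomputable section

namespace Pool.Agent.Helper75.PCap

open Pool.Agent.Helper25.PCap

theorem dn_X {κ : ℝ} (C : Config κ) (z : ℝ × ℝ) :
    dn (C.X z) z.2 = Real.exp (-z.1) * D1 C.W z := by
  have := Real.sin_sq_add_cos_sq z.2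
  simp only [dn, Config.X]
  linear_combination (Real.exp (-z.1) * D1 C.W z) * this

theorem dn_X' {κ : ℝ} (C : Config κ) (z : ℝ × ℝ) :
    -((C.X z).1) * Real.sin z.2 + (C.X z).2 * Real.cos z.2 = Real.exp (-z.1) * D2 C.W z := by
  have := Real.sin_sq_add_cos_sq z.2
  simp only [Config.X]
  linear_combination (Real.exp (-z.1) * D2 C.W z) * this

theorem W_fderiv_per {κ : ℝ} (C : Config κ) (τ θ : ℝ) :
    fderiv ℝ C.W (τ, θ + 2 * π) = fderiv ℝ C.W (τ, θ) := by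
  have h : (fun z : ℝ × ℝ => C.W (z + (0, 2 * π))) = C.W := by
    funext z
    have := C.per z.1 z.2
    have hz : z + ((0 : ℝ), 2 * π) = (z.1, z.2 + 2 * π) := by
      ext <;> simp
    rw [hz, this]
  have h2 := fderiv_comp_add_right (𝕜 := ℝ) (f := C.W) (x := (τ, θ)) ((0 : ℝ), 2 * π)
  rw [h] at h2
  rw [h2]
  simp

theorem X_per {κ : ℝ} (C : Config κ) (τ θ : ℝ) : C.X (τ, θ + 2 * π) = C.X (τ, θ) := by
  simp only [Config.X, D1, D2, W_fderiv_per, Real.cos_add_two_pi, Real.sin_add_two_pi]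

/-- `ρ = e^{-τ}(u_τ/κ + u_θ²/u_τ)` on the level curve -/
def rh {κ : ℝ} (C : Config κ) (s θ : ℝ) : ℝ :=
  Real.exp (-C.lev s θ) * (D1 C.u (C.lev s θ, θ) / κ +
    (D2 C.u (C.lev s θ, θ)) ^ 2 / D1 C.u (C.lev s θ, θ))

theorem X_lev_deriv (h1 : GP1) (h2 : GP2) (hc : GCU0) {κ : ℝ} (h0 : 0 < κ) (hκ1 : κ < 1)
    (C : Config κ) {s θ : ℝ} (hs : 0 < s) (hs1 : s ≤ 1) :
    HasDerivAt (fun θ => C.X (C.lev s θ, θ))
      (-(rh C s θ * Real.sin θ), rh C s θ * Real.cos θ) θ := by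
  have hlT : C.lev s θ ≤ C.T θ := ((h2 κ h0 hκ1 C).1 s θ hs hs1).1
  have hV : (C.lev s θ, θ) ∈ C.V := C.VT _ hlT
  have hlev := (h2 κ h0 hκ1 C).2.2.2.2.2.1 s θ hs hs1
  have hu : 0 < D1 C.u (C.lev s θ, θ) := (hc κ h0 hκ1 C).2.2.2.2.2.2.2.2 _ hlT
  obtain ⟨hX, hX'⟩ := h1 κ h0 hκ1 C
  obtain ⟨e1, e2, -⟩ := hX' _ hV
  have hXd : DifferentiableAt ℝ C.X (C.lev s θ, θ) :=
    (hX.contDiffAt (C.Vopen.mem_nhds hV)).differentiableAt (by simp)
  have hp : HasDerivAt (fun θ => (C.lev s θ, θ))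
      (-(D2 C.u (C.lev s θ, θ) / D1 C.u (C.lev s θ, θ)), (1 : ℝ)) θ :=
    hlev.prodMk (hasDerivAt_id θ)
  have h3 := HasFDerivAt.comp_hasDerivAt (f := fun θ => (C.lev s θ, θ)) θ hXd.hasFDerivAt hp
  have h4 : fderiv ℝ C.X (C.lev s θ, θ)
      (-(D2 C.u (C.lev s θ, θ) / D1 C.u (C.lev s θ, θ)), (1 : ℝ)) =
      (-(rh C s θ * Real.sin θ), rh C s θ * Real.cos θ) := by
    have h5 : ((-(D2 C.u (C.lev s θ, θ) / D1 C.u (C.lev s θ, θ)), (1 : ℝ)) : ℝ × ℝ) =
        (-(D2 C.u (C.lev s θ, θ) / D1 C.u (C.lev s θ, θ))) • ((1 : ℝ), (0 : ℝ)) +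
          ((0 : ℝ), (1 : ℝ)) := by
      simp
    rw [h5, map_add, map_smul, e1, e2]
    ext
    · simp only [rh, Prod.smul_fst, Prod.fst_add, smul_eq_mul]
      field_simp
      ring
    · simp only [rh, Prod.smul_snd, Prod.snd_add, smul_eq_mul]
      field_simp
      ring
  rw [h4] at h3
  exact h3

theorem pkP3 (hc : GCU0) (h1 : GP1) (h2 : GP2) : GP3 := by
  intro κ h0 hκ1 C
  have hdn : ∀ s θ, dn (C.X (C.lev s θ, θ)) θ = C.Hs s θ := fun s θ => dn_X C (C.lev s θ, θ)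
  have hX : ∀ {s : ℝ}, 0 < s → s ≤ 1 → ∀ θ, HasDerivAt (fun θ => C.X (C.lev s θ, θ))
      (-(rh C s θ * Real.sin θ), rh C s θ * Real.cos θ) θ :=
    fun hs hs1 θ => X_lev_deriv h1 h2 hc h0 hκ1 C hs hs1
  have hrho : ∀ {s : ℝ}, 0 < s → s ≤ 1 → ∀ θ, 0 < rh C s θ := by
    intro s hs hs1 θ
    have hlT : C.lev s θ ≤ C.T θ := ((h2 κ h0 hκ1 C).1 s θ hs hs1).1
    have hu : 0 < D1 C.u (C.lev s θ, θ) := (hc κ h0 hκ1 C).2.2.2.2.2.2.2.2 _ hlT
    unfold rh
    have : 0 ≤ (D2 C.u (C.lev s θ, θ)) ^ 2 / D1 C.u (C.lev s θ, θ) :=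
      div_nonneg (sq_nonneg _) hu.le
    have : 0 < D1 C.u (C.lev s θ, θ) / κ := div_pos hu h0
    have := Real.exp_pos (-C.lev s θ)
    positivity
  -- the function `F`
  have hF : ∀ {s : ℝ}, 0 < s → s ≤ 1 → ∀ θ' θ, HasDerivAt (fun θ => dn (C.X (C.lev s θ, θ)) θ')
      (rh C s θ * Real.sin (θ' - θ)) θ := by
    intro s hs hs1 θ' θ
    have h3 := hX hs hs1 θ
    have h4 : HasDerivAt (fun θ => (C.X (C.lev s θ, θ)).1) (-(rh C s θ * Real.sin θ)) θ := h3.fst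
    have h5 : HasDerivAt (fun θ => (C.X (C.lev s θ, θ)).2) (rh C s θ * Real.cos θ) θ := h3.snd
    refine ((h4.mul_const (Real.cos θ')).add (h5.mul_const (Real.sin θ'))).congr_deriv ?_
    rw [Real.sin_sub]
    ring
  have hFper : ∀ {s : ℝ}, ∀ θ', Function.Periodic (fun θ => dn (C.X (C.lev s θ, θ)) θ')
      (2 * π) := by
    intro s θ' θ
    change dn (C.X (C.lev s (θ + 2 * π), θ + 2 * π)) θ' = dn (C.X (C.lev s θ, θ)) θ'
    rw [(h2 κ h0 hκ1 C).2.2.2.2.1 s θ, X_per]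
  have key : ∀ s θ θ', 0 < s → s ≤ 1 → dn (C.X (C.lev s θ, θ)) θ' < C.Hs s θ' ∨
      ∃ n : ℤ, θ = θ' + n * (2 * π) := by
    intro s θ θ' hs hs1
    have hπ := Real.pi_pos
    obtain ⟨n, hn⟩ : ∃ n : ℤ, θ + n • (2 * π) ∈ Ioc (θ' - π) (θ' - π + 2 * π) := by
      obtain ⟨n, hn, -⟩ := existsUnique_add_zsmul_mem_Ioc (by positivity : (0 : ℝ) < 2 * π) θ (θ' - π)
      exact ⟨n, hn⟩
    have hFn : dn (C.X (C.lev s (θ + n • (2 * π)), θ + n • (2 * π))) θ' =
        dn (C.X (C.lev s θ, θ)) θ' := ((hFper (s := s) θ').zsmul n) θ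
    set θ₀ := θ + n • (2 * π) with hθ₀
    have hcont : Continuous (fun θ => dn (C.X (C.lev s θ, θ)) θ') :=
      continuous_iff_continuousAt.2 fun θ => (hF hs hs1 θ' θ).continuousAt
    rcases lt_trichotomy θ₀ θ' with hlt | heq | hgt
    · left
      have hmono : StrictMonoOn (fun θ => dn (C.X (C.lev s θ, θ)) θ') (Icc (θ' - π) θ') := by
        refine strictMonoOn_of_deriv_pos (convex_Icc _ _) hcont.continuousOn ?_
        intro τ hτ
        rw [interior_Icc] at hτ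
        rw [(hF hs hs1 θ' τ).deriv]
        exact mul_pos (hrho hs hs1 τ)
          (Real.sin_pos_of_pos_of_lt_pi (by linarith [hτ.2]) (by linarith [hτ.1]))
      have := hmono ⟨hn.1.le, hlt.le⟩ ⟨by linarith, le_rfl⟩ hlt
      simp only at this
      rw [hFn, hdn] at this
      exact this
    · right
      refine ⟨-n, ?_⟩
      rw [← heq, hθ₀]
      push_cast
      simp
    · left
      have hanti : StrictAntiOn (fun θ => dn (C.X (C.lev s θ, θ)) θ') (Icc θ' (θ' + π)) := by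
        refine strictAntiOn_of_deriv_neg (convex_Icc _ _) hcont.continuousOn ?_
        intro τ hτ
        rw [interior_Icc] at hτ
        rw [(hF hs hs1 θ' τ).deriv]
        refine mul_neg_of_pos_of_neg (hrho hs hs1 τ) ?_
        exact Real.sin_neg_of_neg_of_neg_pi_lt (by linarith [hτ.1]) (by linarith [hτ.2])
      have := hanti ⟨le_rfl, by linarith⟩ ⟨hgt.le, by linarith [hn.2]⟩ hgt
      simp only at this
      rw [hFn, hdn] at this
      exact this
  have hHper : ∀ s θ (n : ℤ), C.Hs s (θ + n * (2 * π)) = C.Hs s θ := by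
    intro s θ n
    have hlev : Function.Periodic (C.lev s) (2 * π) := (h2 κ h0 hκ1 C).2.2.2.2.1 s
    have hHp : Function.Periodic (C.Hs s) (2 * π) := by
      intro θ
      rw [← hdn, ← hdn, hlev θ, X_per]
      simp [dn]
    have := (hHp.zsmul n) θ
    simpa using this
  have hH1 : ∀ θ, C.Hs 1 θ = C.H θ := by
    intro θ
    unfold Config.Hs Config.H
    rw [(h2 κ h0 hκ1 C).2.2.1 θ, C.bdry θ]
  refine ⟨hH1, ?_, hdn, ?_, ?_, ?_⟩
  · have hW : Continuous fun θ => C.W (C.T θ, θ) := by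
      rw [continuous_iff_continuousAt]
      intro θ
      have hV : (C.T θ, θ) ∈ C.V := C.VT _ le_rfl
      have : ContinuousAt C.W (C.T θ, θ) :=
        (C.smooth.contDiffAt (C.Vopen.mem_nhds hV)).continuousAt
      exact ContinuousAt.comp' (f := fun θ => (C.T θ, θ)) this
        (C.Tcont.prodMk continuous_id).continuousAt
    exact (Real.continuous_exp.comp C.Tcont.neg).mul hW
  · intro s θ hs hs1
    have h3 := hX hs hs1 θ
    have h4 : HasDerivAt (fun θ => (C.X (C.lev s θ, θ)).1) (-(rh C s θ * Real.sin θ)) θ := h3.fst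
    have h5 : HasDerivAt (fun θ => (C.X (C.lev s θ, θ)).2) (rh C s θ * Real.cos θ) θ := h3.snd
    have h6 := (h4.mul (Real.hasDerivAt_cos θ)).add (h5.mul (Real.hasDerivAt_sin θ))
    have h7 : C.Hs s = fun θ => (C.X (C.lev s θ, θ)).1 * Real.cos θ +
        (C.X (C.lev s θ, θ)).2 * Real.sin θ := by
      funext t
      rw [← hdn]
      rfl
    rw [h7]
    refine h6.congr_deriv ?_
    have h8 := dn_X' C (C.lev s θ, θ)
    simp only at h8
    rw [← h8]
    ring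
  · intro s θ θ' hs hs1
    rcases key s θ θ' hs hs1 with h | ⟨n, hn⟩
    · exact h.le
    · rw [← hHper s θ' n, ← hn, ← hdn s θ, hn]
      simp [dn]
  · intro s θ θ' hs hs1 heq
    rcases key s θ θ' hs hs1 with h | h
    · exact absurd heq h.ne
    · exact h

end Pool.Agent.Helper75.PCap
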